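import Pool.Agent.LPK.Stmts

/-!
# LPK, row MLL: the first vector of a pair is transformed
-/

set_option autoImplicit false

noncomputable section

open MeasureTheory Filter Topology
open scoped RealInnerProductSpace

namespace Pool.Agent.LPK.H45

open Pool.Agent.LPK

theorem tsum_pair {n : ℕ} (p : P3) (b d : Fin n → V n)
    (hs : Summable fun a : Z2 n => W p (pt b a.1) (pt d a.2)) :
    ∑' a : Z2 n, W p (pt b a.1) (pt d a.2) =
      ∑' c : Fin n → ℤ, (∑' a : Fin n → ℤ,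
        e3 p (‖pt b a‖ ^ 2) (‖pt d c‖ ^ 2) ⟪pt b a, pt d c⟫ * G (pt b a)) * G (pt d c) := by
  have hs' : Summable fun a : Z2 n => W p (pt b a.2) (pt d a.1) := hs.prod_symm
  have h1 : ∑' a : Z2 n, W p (pt b a.1) (pt d a.2) = ∑' a : Z2 n, W p (pt b a.2) (pt d a.1) :=
    ((Equiv.prodComm (Fin n → ℤ) (Fin n → ℤ)).tsum_eq
      (fun a : Z2 n => W p (pt b a.1) (pt d a.2))).symm
  rw [h1, hs'.tsum_prod]
  refine tsum_congr fun c => ?_
  rw [← tsum_mul_right]
  refine tsum_congr fun a => ?_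
  simp only [W]
  ring

theorem mll (hPLM : PlmStmt) (hSUM : SumStmt) (hDUA : DuaStmt) : MllStmt := by
  intro n κ κ' b b' d d' hb hd p hp
  have hb' : Du κ⁻¹ b' b := (hDUA n κ b b' hb).1
  have s1 := (hSUM n κ κ' b d b' d' hb hd).2.1 p
  have s2 := (hSUM n κ⁻¹ κ' b' d b d' hb' hd).2.1 (T3 n p)
  rw [tsum_pair p b d s1, tsum_pair (T3 n p) b' d s2, ← tsum_mul_left]
  refine tsum_congr fun c => ?_
  rw [← mul_assoc, hPLM n κ b b' hb p hp (pt d c)]

end Pool.Agent.LPK.H45
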